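import Pool.Agent.W680.WH.Stm

/-!
# WHH-KER: kernel bound
-/

set_option autoImplicit false

namespace Pool.Agent.W933.WH

open Pool.Agent.W680.WH

/-- the weights as a function of the absolute value -/
noncomputable def P (a : ℕ) : ℝ := ∏ i ∈ Finset.range a, ((4 * (i : ℝ) + 3) / (4 * (i : ℝ) + 1))

lemma P_pos (a : ℕ) : 0 < P a := Finset.prod_pos fun i _ => by positivity

lemma P_succ (a : ℕ) : P (a + 1) = P a * ((4 * (a : ℝ) + 3) / (4 * (a : ℝ) + 1)) := by
  unfold P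
  rw [Finset.prod_range_succ]

lemma P_zero : P 0 = 1 := by simp [P]

lemma om_eq (n : ℤ) : om n = P n.natAbs := rfl

lemma P_le_succ (a : ℕ) : P a ≤ P (a + 1) := by
  rw [P_succ]
  refine le_mul_of_one_le_right (P_pos a).le ?_
  rw [le_div_iff₀ (by positivity)]
  linarith

lemma P_mono {a b : ℕ} (h : a ≤ b) : P a ≤ P b := monotone_nat_of_le_succ P_le_succ h

lemma step (b : ℕ) : P (b + 1) ^ 2 * b ≤ P b ^ 2 * (b + 1) := by
  rw [P_succ, mul_pow, mul_assoc]
  refine mul_le_mul_of_nonneg_left ?_ (sq_nonneg _)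
  rw [div_pow, div_mul_eq_mul_div, div_le_iff₀ (by positivity)]
  nlinarith [Nat.cast_nonneg (α := ℝ) b]

lemma dec (a b : ℕ) (ha : 1 ≤ a) (hab : a ≤ b) : P b ^ 2 * a ≤ P a ^ 2 * b := by
  induction b, hab using Nat.le_induction with
  | base => exact le_refl _
  | succ b hb ih =>
    have hb0 : (0 : ℝ) < b := by exact_mod_cast (by omega : 0 < b)
    have h1 := step b
    have h2 : (P (b + 1) ^ 2 * a) * b ≤ (P a ^ 2 * ((b + 1 : ℕ) : ℝ)) * b := by
      push_cast
      calc (P (b + 1) ^ 2 * a) * b = (P (b + 1) ^ 2 * b) * a := by ring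
        _ ≤ (P b ^ 2 * (b + 1)) * a := mul_le_mul_of_nonneg_right h1 (Nat.cast_nonneg a)
        _ = (P b ^ 2 * a) * (b + 1) := by ring
        _ ≤ (P a ^ 2 * b) * (b + 1) := mul_le_mul_of_nonneg_right ih (by positivity)
        _ = (P a ^ 2 * (b + 1)) * b := by ring
    exact le_of_mul_le_mul_right h2 hb0

lemma sqb (a b : ℕ) (hab : a ≤ b) : P b ^ 2 * (1 + a) ≤ 9 * P a ^ 2 * (1 + b) := by
  have hpa := P_pos a
  have hpb := P_pos b
  rcases Nat.eq_zero_or_pos a with rfl | ha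
  · rw [P_zero]
    rcases Nat.eq_zero_or_pos b with rfl | hb
    · rw [P_zero]; norm_num
    · have h1 := dec 1 b le_rfl hb
      have h2 : P 1 = 3 := by
        have := P_succ 0
        rw [P_zero] at this
        simpa using this
      rw [h2] at h1
      push_cast at h1 ⊢
      nlinarith
  · have h1 := dec a b ha hab
    have ha' : (1 : ℝ) ≤ a := by exact_mod_cast ha
    have h2 : P b ^ 2 * (1 + a) ≤ 2 * (P b ^ 2 * a) := by nlinarith [sq_nonneg (P b)]
    nlinarith [sq_nonneg (P a), Nat.cast_nonneg (α := ℝ) b]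

lemma diffb (a b : ℕ) (hab : a ≤ b) (hb : b ≤ 2 * a + 1) :
    (P b - P a) * (1 + a) ≤ 2 * P a * ((b : ℝ) - a) := by
  have hpa := P_pos a
  have hpb := P_pos b
  have hmono := P_mono hab
  rcases Nat.eq_zero_or_pos a with rfl | ha
  · have : b = 0 ∨ b = 1 := by omega
    rcases this with rfl | rfl
    · simp
    · have h2 : P 1 = 3 := by
        have := P_succ 0
        rw [P_zero] at this
        simpa using this
      rw [h2, P_zero]; norm_num
  · have h1 := dec a b ha hab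
    have ha' : (1 : ℝ) ≤ a := by exact_mod_cast ha
    have hab' : (a : ℝ) ≤ b := by exact_mod_cast hab
    -- (P b - P a) a P a <= (P b^2 - P a^2) a <= P a ^2 (b - a)
    have h3 : (P b - P a) * P a * a ≤ P a ^ 2 * ((b : ℝ) - a) := by
      have : (P b - P a) * P a ≤ (P b - P a) * (P b + P a) :=
        mul_le_mul_of_nonneg_left (by linarith) (by linarith)
      nlinarith
    have h4 : ((P b - P a) * a) * P a ≤ (P a * ((b : ℝ) - a)) * P a := by nlinarith
    have h5 : (P b - P a) * a ≤ P a * ((b : ℝ) - a) := le_of_mul_le_mul_right h4 hpa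
    nlinarith

/-- the analytic estimate -/
lemma core (a b : ℕ) (hab : a ≤ b) (D : ℝ) (hD : 0 < D) (hDab : (b : ℝ) - a ≤ D) :
    |Real.sqrt (P a / P b) - Real.sqrt (P b / P a)| / D ≤
      4 * (1 + (b : ℝ)) ^ (-(3 / 4) : ℝ) * (1 + (a : ℝ)) ^ (-(1 / 4) : ℝ) := by
  have hpa := P_pos a
  have hpb := P_pos b
  have hmono := P_mono hab
  have hx : (0 : ℝ) < 1 + b := by positivity
  have hy : (0 : ℝ) < 1 + a := by positivity
  have hab' : (a : ℝ) ≤ b := by exact_mod_cast hab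
  set u : ℝ := (1 + (b : ℝ)) ^ ((1 / 4) : ℝ) with hu
  set v : ℝ := (1 + (a : ℝ)) ^ ((1 / 4) : ℝ) with hv
  have hu0 : 0 < u := Real.rpow_pos_of_pos hx _
  have hv0 : 0 < v := Real.rpow_pos_of_pos hy _
  have hu4 : u ^ 4 = 1 + b := by
    rw [hu, ← Real.rpow_natCast, ← Real.rpow_mul hx.le]; norm_num
  have hv4 : v ^ 4 = 1 + a := by
    rw [hv, ← Real.rpow_natCast, ← Real.rpow_mul hy.le]; norm_num
  have hu3 : (1 + (b : ℝ)) ^ (-(3 / 4) : ℝ) = (u ^ 3)⁻¹ := by
    rw [hu, Real.rpow_neg hx.le, ← Real.rpow_natCast ((1 + (b : ℝ)) ^ ((1 / 4) : ℝ)),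
      ← Real.rpow_mul hx.le]
    norm_num
  have hv1 : (1 + (a : ℝ)) ^ (-(1 / 4) : ℝ) = v⁻¹ := by
    rw [hv, Real.rpow_neg hy.le]
  rw [hu3, hv1]
  have hvu : v ≤ u := Real.rpow_le_rpow hy.le (by linarith) (by norm_num)
  set r : ℝ := Real.sqrt (P b / P a) with hr
  have hr1 : 1 ≤ r := by
    rw [hr, Real.one_le_sqrt, le_div_iff₀ hpa]; linarith
  have hr0 : 0 < r := by linarith
  have hrr : r ^ 2 = P b / P a := Real.sq_sqrt (by positivity)
  have hinv : Real.sqrt (P a / P b) = r⁻¹ := by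
    rw [hr, ← Real.sqrt_inv, inv_div]
  rw [hinv]
  have hle : r⁻¹ ≤ r := (inv_le_one_of_one_le₀ hr1).trans hr1
  rw [abs_of_nonpos (by linarith), neg_sub]
  rw [div_le_iff₀ hD]
  by_cases hc : b ≤ 2 * a + 1
  · -- first case
    have h1 := diffb a b hab hc
    have h2 : r - r⁻¹ ≤ r ^ 2 - 1 := by
      have h3 : r - r⁻¹ = (r ^ 2 - 1) / r := by field_simp
      rw [h3]
      exact div_le_self (by nlinarith) hr1
    have h4 : r ^ 2 - 1 ≤ 2 * D / v ^ 4 := by
      rw [hrr, hv4, le_div_iff₀ hy, div_sub_one hpa.ne', div_mul_eq_mul_div, div_le_iff₀ hpa]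
      nlinarith
    have h5 : u ^ 3 ≤ 2 * v ^ 3 := by
      have h6 : u ^ 4 ≤ 2 * v ^ 4 := by
        rw [hu4, hv4]
        have : (b : ℝ) ≤ 2 * a + 1 := by exact_mod_cast hc
        linarith
      have h7 : u ^ 3 * v ≤ (2 * v ^ 3) * v := by
        calc u ^ 3 * v ≤ u ^ 3 * u := mul_le_mul_of_nonneg_left hvu (by positivity)
          _ = u ^ 4 := by ring
          _ ≤ 2 * v ^ 4 := h6
          _ = (2 * v ^ 3) * v := by ring
      exact le_of_mul_le_mul_right h7 hv0
    refine (h2.trans h4).trans ?_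
    have h8 : 4 * (u ^ 3)⁻¹ * v⁻¹ * D = 4 * D / (u ^ 3 * v) := by field_simp
    rw [h8, div_le_div_iff₀ (by positivity) (by positivity)]
    have h9 : u ^ 3 * v ≤ (2 * v ^ 3) * v := mul_le_mul_of_nonneg_right h5 hv0.le
    nlinarith
  · -- second case
    have hb2 : (2 * (a : ℝ) + 2) ≤ b := by exact_mod_cast (by omega : 2 * a + 2 ≤ b)
    have hD2 : u ^ 4 ≤ 2 * D := by rw [hu4]; linarith
    have h1 := sqb a b hab
    have h2 : (r * v) ^ 4 ≤ (2 * u) ^ 4 := by
      have h3 : r ^ 4 = P b ^ 2 / P a ^ 2 := by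
        calc r ^ 4 = (r ^ 2) ^ 2 := by ring
          _ = _ := by rw [hrr, div_pow]
      rw [mul_pow, mul_pow, h3, hu4, hv4, div_mul_eq_mul_div, div_le_iff₀ (by positivity)]
      nlinarith [mul_pos (pow_pos hpa 2) hx]
    have h3 : r * v ≤ 2 * u := le_of_pow_le_pow_left₀ (by norm_num) (by positivity) h2
    have h4 : r - r⁻¹ ≤ r := by
      have : 0 < r⁻¹ := by positivity
      linarith
    refine h4.trans ?_
    have h8 : 4 * (u ^ 3)⁻¹ * v⁻¹ * D = 4 * D / (u ^ 3 * v) := by field_simp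
    rw [h8, le_div_iff₀ (by positivity)]
    calc r * (u ^ 3 * v) = (r * v) * u ^ 3 := by ring
      _ ≤ (2 * u) * u ^ 3 := mul_le_mul_of_nonneg_right h3 (by positivity)
      _ = 2 * u ^ 4 := by ring
      _ ≤ 4 * D := by linarith

theorem KER : S_KER := by
  refine ⟨4, fun m n hmn hle => ?_⟩
  have hD : (0 : ℝ) < |(m : ℝ) - n| := by
    rw [abs_pos, sub_ne_zero]
    exact_mod_cast hmn
  rw [om_eq, om_eq]
  refine core m.natAbs n.natAbs hle _ hD ?_
  rw [Nat.cast_natAbs, Nat.cast_natAbs, Int.cast_abs, Int.cast_abs, abs_sub_comm]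
  exact abs_sub_abs_le_abs_sub (n : ℝ) (m : ℝ)

end Pool.Agent.W933.WH
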